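import Mathlib

/-!
# A graph with `q(G) = 2` and `MB(G) > mr₊(G)`

The graph is `G = (K₂ ∪ 2K₁) ∨ (2K₂)` on eight vertices.
-/

namespace Pool.Agent.Results.MP_558aee_co.MBGap

open Matrix

/-- `S(G)`: the real symmetric matrices `A` such that, for `i ≠ j`, the entry `A i j` is nonzero
exactly when `ij` is an edge of `G`. The diagonal entries are unrestricted. -/
def SG {n : ℕ} (G : SimpleGraph (Fin n)) : Set (Matrix (Fin n) (Fin n) ℝ) :=
  {A | A.IsSymm ∧ ∀ i j, i ≠ j → (A i j ≠ 0 ↔ G.Adj i j)}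

/-- The number of distinct eigenvalues of a real square matrix. -/
noncomputable def numEig {n : ℕ} (A : Matrix (Fin n) (Fin n) ℝ) : ℕ := (spectrum ℝ A).ncard

/-- The multiplicity of the real number `μ` as an eigenvalue of `A` (the dimension of the
eigenspace; `0` if `μ` is not an eigenvalue). -/
noncomputable def mult {n : ℕ} (A : Matrix (Fin n) (Fin n) ℝ) (μ : ℝ) : ℕ :=
  Module.finrank ℝ (Module.End.eigenspace (Matrix.toLin' A) μ)

/-- `q(G)`: the least number of distinct eigenvalues of a matrix in `S(G)`. -/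
noncomputable def q {n : ℕ} (G : SimpleGraph (Fin n)) : ℕ :=
  sInf {m | ∃ A ∈ SG G, numEig A = m}

/-- `G` achieves the bipartition `[n-k, k]`, where `1 ≤ k ≤ n/2`: some `A ∈ S(G)` has exactly two
distinct eigenvalues, with multiplicities `n-k` and `k`. -/
def Achieves {n : ℕ} (G : SimpleGraph (Fin n)) (k : ℕ) : Prop :=
  1 ≤ k ∧ 2 * k ≤ n ∧ ∃ A ∈ SG G, numEig A = 2 ∧
    ∃ l m : ℝ, l ≠ m ∧ mult A l = n - k ∧ mult A m = k

/-- The minimal multiplicity bipartition `MB(G)`: the least `k` such that `G` achieves the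
bipartition `[n-k, k]` (the infimum `0` of the empty set if there is none). -/
noncomputable def MB {n : ℕ} (G : SimpleGraph (Fin n)) : ℕ := sInf {k | Achieves G k}

/-- `mr₊(G)`: the minimum rank of a positive semidefinite matrix in `S(G)`. -/
noncomputable def mrPlus {n : ℕ} (G : SimpleGraph (Fin n)) : ℕ :=
  sInf {r | ∃ A ∈ SG G, A.PosSemidef ∧ A.rank = r}

/-! ## The graph -/

/-- Adjacency of `(K₂ ∪ 2K₁) ∨ (2K₂)`: vertices `0,1,2,3` and `4,5,6,7` form the two sides of the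
join, the edges inside the sides are `01`, `45`, `67`. -/
def adjB : Fin 8 → Fin 8 → Bool := fun i j =>
  match i.val, j.val with
  | 0, 1 => true | 1, 0 => true
  | 4, 5 => true | 5, 4 => true
  | 6, 7 => true | 7, 6 => true
  | a, b => (decide (a < 4) && decide (4 ≤ b)) || (decide (4 ≤ a) && decide (b < 4))

/-- The graph `(K₂ ∪ 2K₁) ∨ (2K₂)`. -/
def G8 : SimpleGraph (Fin 8) where
  Adj i j := adjB i j = true
  symm := ⟨by decide⟩
  loopless := ⟨by decide⟩

instance : DecidableRel G8.Adj := fun i j => inferInstanceAs (Decidable (adjB i j = true))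

/-! ## The explicit matrices -/

/-- An integer matrix with pattern `G8` and square `625² I`. -/
def MZ : Matrix (Fin 8) (Fin 8) ℤ :=
  !![-105, 360, 0, 0, -288, -84, 384, 112;
     360, 105, 0, 0, -84, 288, 112, -384;
     0, 0, 375, 0, -320, 240, -240, 180;
     0, 0, 0, -375, 240, 320, 180, 240;
     -288, -84, -320, 240, -105, 360, 0, 0;
     -84, 288, 240, 320, 360, 105, 0, 0;
     384, 112, -240, 180, 0, 0, -105, 360;
     112, -384, 180, 240, 0, 0, 360, 105]

lemma MZ_sq : MZ * MZ = (390625 : ℤ) • (1 : Matrix (Fin 8) (Fin 8) ℤ) := by decide +kernel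

lemma MZ_symm : MZᵀ = MZ := by decide +kernel



/-- An integer matrix whose Gram matrix has pattern `G8`. -/
def VZ : Matrix (Fin 8) (Fin 3) ℤ :=
  !![1, 0, 0;
     1, 0, 0;
     0, 1, 0;
     0, 0, 1;
     1, 1, 1;
     1, 1, 1;
     1, 1, -2;
     1, 2, -3]


lemma MZ_pattern (i j : Fin 8) : i ≠ j → ((MZ i j ≠ 0) ↔ G8.Adj i j) := by
  have h : ∀ p : Fin 8 × Fin 8, p.1 ≠ p.2 → ((MZ p.1 p.2 ≠ 0) ↔ adjB p.1 p.2 = true) := by
    decide +kernel
  exact h (i, j)

lemma VZ_pattern (i j : Fin 8) : i ≠ j → (((VZ * VZᵀ) i j ≠ 0) ↔ G8.Adj i j) := by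
  have h : ∀ p : Fin 8 × Fin 8, p.1 ≠ p.2 → (((VZ * VZᵀ) p.1 p.2 ≠ 0) ↔ adjB p.1 p.2 = true) := by
    decide +kernel
  exact h (i, j)

/-! ## The lower bound: no projection of rank at most three -/

lemma alg (a0 a2 a3 e0 e2 e3 c4 c5 c6 t s x4 x5 x6 x7 y4 y5 y6 y7 z4 z5 z6 z7 : ℝ)
    (he0 : e0 ≠ 0) (he2 : e2 ≠ 0) (he3 : e3 ≠ 0)
    (ht : t ≠ 0) (hs : s ≠ 0)
    (hx4 : x4 ≠ 0) (hy4 : y4 ≠ 0) (hz4 : z4 ≠ 0)
    (hx6 : x6 ≠ 0) (hy6 : y6 ≠ 0) (hz6 : z6 ≠ 0)
    (h40 : x4 * (a0 + c4) = -t * x5) (h42 : y4 * (a2 + c4) = -t * y5)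
    (h43 : z4 * (a3 + c4) = -t * z5)
    (h50 : x5 * (a0 + c5) = -t * x4) (h52 : y5 * (a2 + c5) = -t * y4)
    (h53 : z5 * (a3 + c5) = -t * z4)
    (h60 : x6 * (a0 + c6) = -s * x7) (h62 : y6 * (a2 + c6) = -s * y7)
    (h63 : z6 * (a3 + c6) = -s * z7)
    (o46 : e0 * (x4 * x6) + e2 * (y4 * y6) + e3 * (z4 * z6) = 0)
    (o56 : e0 * (x5 * x6) + e2 * (y5 * y6) + e3 * (z5 * z6) = 0)
    (f02 : x4 * y4 + x5 * y5 + x6 * y6 + x7 * y7 = 0)
    (f03 : x4 * z4 + x5 * z5 + x6 * z6 + x7 * z7 = 0)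
    (f23 : y4 * z4 + y5 * z5 + y6 * z6 + y7 * z7 = 0) : False := by
  -- the three numbers are roots of one quadratic
  have q0 : (a0 + c4) * (a0 + c5) = t ^ 2 := by
    have : x4 * ((a0 + c4) * (a0 + c5)) = x4 * t ^ 2 := by
      linear_combination (a0 + c5) * h40 - t * h50
    exact mul_left_cancel₀ hx4 this
  have q2 : (a2 + c4) * (a2 + c5) = t ^ 2 := by
    have : y4 * ((a2 + c4) * (a2 + c5)) = y4 * t ^ 2 := by
      linear_combination (a2 + c5) * h42 - t * h52
    exact mul_left_cancel₀ hy4 this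
  have q3 : (a3 + c4) * (a3 + c5) = t ^ 2 := by
    have : z4 * ((a3 + c4) * (a3 + c5)) = z4 * t ^ 2 := by
      linear_combination (a3 + c5) * h43 - t * h53
    exact mul_left_cancel₀ hz4 this
  have w : a0 * (e0 * (x4 * x6)) + a2 * (e2 * (y4 * y6)) + a3 * (e3 * (z4 * z6)) = 0 := by
    linear_combination (e0 * x6) * h40 + (e2 * y6) * h42 + (e3 * z6) * h43 - c4 * o46 - t * o56
  have W0 : e0 * (x4 * x6) ≠ 0 := by positivity
  have W2 : e2 * (y4 * y6) ≠ 0 := by positivity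
  have W3 : e3 * (z4 * z6) ≠ 0 := by positivity
  have r02 : (a0 - a2) * (a0 + a2 + c4 + c5) = 0 := by linear_combination q0 - q2
  have r03 : (a0 - a3) * (a0 + a3 + c4 + c5) = 0 := by linear_combination q0 - q3
  have r23 : (a2 - a3) * (a2 + a3 + c4 + c5) = 0 := by linear_combination q2 - q3
  -- hence two of them coincide, and then all of them
  have key : a0 = a2 ∧ a0 = a3 := by
    have two : a0 = a2 ∨ a0 = a3 ∨ a2 = a3 := by
      by_contra hcon
      push Not at hcon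
      obtain ⟨n02, n03, n23⟩ := hcon
      have s02 := (mul_eq_zero.mp r02).resolve_left (sub_ne_zero.mpr n02)
      have s03 := (mul_eq_zero.mp r03).resolve_left (sub_ne_zero.mpr n03)
      exact n23 (by linarith)
    rcases two with h | h | h
    · refine ⟨h, ?_⟩
      have : (a3 - a0) * (e3 * (z4 * z6)) = 0 := by
        subst h; linear_combination w - a0 * o46
      have := (mul_eq_zero.mp this).resolve_right W3
      linarith
    · refine ⟨?_, h⟩
      have : (a2 - a0) * (e2 * (y4 * y6)) = 0 := by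
        subst h; linear_combination w - a0 * o46
      have := (mul_eq_zero.mp this).resolve_right W2
      linarith
    · have : (a0 - a2) * (e0 * (x4 * x6)) = 0 := by
        subst h; linear_combination w - a2 * o46
      have := (mul_eq_zero.mp this).resolve_right W0
      constructor <;> linarith
  obtain ⟨rfl, rfl⟩ := key
  -- parallel pairs
  set ρ : ℝ := -(a0 + c4) / t with hρ
  set σ : ℝ := -(a0 + c6) / s with hσ
  have x5e : x5 = ρ * x4 := by rw [hρ]; field_simp; linear_combination h40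
  have y5e : y5 = ρ * y4 := by rw [hρ]; field_simp; linear_combination h42
  have z5e : z5 = ρ * z4 := by rw [hρ]; field_simp; linear_combination h43
  have x7e : x7 = σ * x6 := by rw [hσ]; field_simp; linear_combination h60
  have y7e : y7 = σ * y6 := by rw [hσ]; field_simp; linear_combination h62
  have z7e : z7 = σ * z6 := by rw [hσ]; field_simp; linear_combination h63
  subst x5e y5e z5e x7e y7e z7e
  have g02 : (1 + ρ ^ 2) * (x4 * y4) = -((1 + σ ^ 2) * (x6 * y6)) := by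
    linear_combination f02
  have g03 : (1 + ρ ^ 2) * (x4 * z4) = -((1 + σ ^ 2) * (x6 * z6)) := by
    linear_combination f03
  have g23 : (1 + ρ ^ 2) * (y4 * z4) = -((1 + σ ^ 2) * (y6 * z6)) := by
    linear_combination f23
  have prod : (1 + ρ ^ 2) ^ 3 * (x4 * y4 * z4) ^ 2 = -((1 + σ ^ 2) ^ 3 * (x6 * y6 * z6) ^ 2) := by
    calc (1 + ρ ^ 2) ^ 3 * (x4 * y4 * z4) ^ 2
        = ((1 + ρ ^ 2) * (x4 * y4)) * ((1 + ρ ^ 2) * (x4 * z4)) * ((1 + ρ ^ 2) * (y4 * z4)) := by
          ring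
      _ = -((1 + σ ^ 2) ^ 3 * (x6 * y6 * z6) ^ 2) := by rw [g02, g03, g23]; ring
  have p1 : 0 < (1 + ρ ^ 2) ^ 3 * (x4 * y4 * z4) ^ 2 := by positivity
  have p2 : 0 < (1 + σ ^ 2) ^ 3 * (x6 * y6 * z6) ^ 2 := by positivity
  linarith

lemma schur {B : Matrix (Fin 8) (Fin 8) ℝ} (hr : B.rank ≤ 3)
    (h02 : B 0 2 = 0) (h03 : B 0 3 = 0) (h20 : B 2 0 = 0) (h23 : B 2 3 = 0)
    (h30 : B 3 0 = 0) (h32 : B 3 2 = 0) (i j : Fin 8) :
    B 0 0 * B 2 2 * B 3 3 * B i j =
      B 2 2 * B 3 3 * (B i 0 * B 0 j) + B 0 0 * B 3 3 * (B i 2 * B 2 j)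
        + B 0 0 * B 2 2 * (B i 3 * B 3 j) := by
  have hdet : (B.submatrix ![0, 2, 3, i] ![0, 2, 3, j]).det = 0 := by
    by_contra hne
    have hu : IsUnit (B.submatrix ![0, 2, 3, i] ![0, 2, 3, j]) :=
      (Matrix.isUnit_iff_isUnit_det _).mpr (isUnit_iff_ne_zero.mpr hne)
    have h1 := Matrix.rank_of_isUnit _ hu
    have h2 := Matrix.rank_submatrix_le B ![0, 2, 3, i] ![0, 2, 3, j]
    rw [h1] at h2
    simp at h2
    omega
  have hm : B.submatrix ![0, 2, 3, i] ![0, 2, 3, j] =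
      !![B 0 0, 0, 0, B 0 j; 0, B 2 2, 0, B 2 j; 0, 0, B 3 3, B 3 j;
        B i 0, B i 2, B i 3, B i j] := by
    ext a b
    fin_cases a <;> fin_cases b <;> simp [h02, h03, h20, h23, h30, h32]
  rw [hm] at hdet
  simp [Matrix.det_succ_row_zero, Fin.sum_univ_succ, Fin.succAbove] at hdet
  linear_combination hdet

/-- No symmetric idempotent matrix of rank at most three has pattern `G8`. -/
lemma no_proj {B : Matrix (Fin 8) (Fin 8) ℝ} (hsym : B.IsSymm) (hB : B * B = B)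
    (hp : ∀ i j, i ≠ j → (B i j ≠ 0 ↔ G8.Adj i j)) (hr : B.rank ≤ 3) : False := by
  have hs : ∀ i j, B j i = B i j := fun i j => hsym.apply i j
  have zero : ∀ i j, i ≠ j → ¬ G8.Adj i j → B i j = 0 := fun i j hij hn => by
    by_contra h
    exact hn ((hp i j hij).mp h)
  have nz : ∀ i j, i ≠ j → G8.Adj i j → B i j ≠ 0 := fun i j hij h => (hp i j hij).mpr h
  have z02 : B 0 2 = 0 := zero 0 2 (by decide) (by decide)
  have z03 : B 0 3 = 0 := zero 0 3 (by decide) (by decide)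
  have z12 : B 1 2 = 0 := zero 1 2 (by decide) (by decide)
  have z13 : B 1 3 = 0 := zero 1 3 (by decide) (by decide)
  have z23 : B 2 3 = 0 := zero 2 3 (by decide) (by decide)
  have z46 : B 4 6 = 0 := zero 4 6 (by decide) (by decide)
  have z47 : B 4 7 = 0 := zero 4 7 (by decide) (by decide)
  have z56 : B 5 6 = 0 := zero 5 6 (by decide) (by decide)
  have z57 : B 5 7 = 0 := zero 5 7 (by decide) (by decide)
  have n45 : B 4 5 ≠ 0 := nz 4 5 (by decide) (by decide)
  have n67 : B 6 7 ≠ 0 := nz 6 7 (by decide) (by decide)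
  have n04 : B 0 4 ≠ 0 := nz 0 4 (by decide) (by decide)
  have n24 : B 2 4 ≠ 0 := nz 2 4 (by decide) (by decide)
  have n34 : B 3 4 ≠ 0 := nz 3 4 (by decide) (by decide)
  have n06 : B 0 6 ≠ 0 := nz 0 6 (by decide) (by decide)
  have n26 : B 2 6 ≠ 0 := nz 2 6 (by decide) (by decide)
  have n36 : B 3 6 ≠ 0 := nz 3 6 (by decide) (by decide)
  -- entries of `B * B = B`
  have sq : ∀ i j, B 0 i * B 0 j + B 1 i * B 1 j + B 2 i * B 2 j + B 3 i * B 3 j + B 4 i * B 4 j
      + B 5 i * B 5 j + B 6 i * B 6 j + B 7 i * B 7 j = B i j := by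
    intro i j
    have h := congrFun (congrFun hB i) j
    rw [Matrix.mul_apply] at h
    simp only [Fin.sum_univ_eight] at h
    rw [← h, hs 0 i, hs 1 i, hs 2 i, hs 3 i, hs 4 i, hs 5 i, hs 6 i, hs 7 i]
  have d0 : 0 < B 0 0 := by
    have h := sq 0 0
    rw [← h, hs 0 4]
    have : 0 < B 0 4 ^ 2 := by positivity
    nlinarith [sq_nonneg (B 0 0), sq_nonneg (B 1 0), sq_nonneg (B 2 0), sq_nonneg (B 3 0),
      sq_nonneg (B 5 0), sq_nonneg (B 6 0), sq_nonneg (B 7 0)]
  have d2 : 0 < B 2 2 := by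
    have h := sq 2 2
    rw [← h, hs 2 4]
    have : 0 < B 2 4 ^ 2 := by positivity
    nlinarith [sq_nonneg (B 0 2), sq_nonneg (B 1 2), sq_nonneg (B 2 2), sq_nonneg (B 3 2),
      sq_nonneg (B 5 2), sq_nonneg (B 6 2), sq_nonneg (B 7 2)]
  have d3 : 0 < B 3 3 := by
    have h := sq 3 3
    rw [← h, hs 3 4]
    have : 0 < B 3 4 ^ 2 := by positivity
    nlinarith [sq_nonneg (B 0 3), sq_nonneg (B 1 3), sq_nonneg (B 2 3), sq_nonneg (B 3 3),
      sq_nonneg (B 5 3), sq_nonneg (B 6 3), sq_nonneg (B 7 3)]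
  have z20 : B 2 0 = 0 := by rw [hs 0 2, z02]
  have z30 : B 3 0 = 0 := by rw [hs 0 3, z03]
  have z32 : B 3 2 = 0 := by rw [hs 2 3, z23]
  have z64 : B 6 4 = 0 := by rw [hs 4 6, z46]
  have z74 : B 7 4 = 0 := by rw [hs 4 7, z47]
  have z65 : B 6 5 = 0 := by rw [hs 5 6, z56]
  have z75 : B 7 5 = 0 := by rw [hs 5 7, z57]
  have S := schur hr z02 z03 z20 z23 z30 z32
  -- vertex 1 is parallel to vertex 0
  have par : ∀ j, B 0 0 * B 1 j = B 0 1 * B 0 j := by
    intro j
    have h := S 1 j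
    rw [z12, z13, hs 0 1] at h
    have hne : B 2 2 * B 3 3 ≠ 0 := by positivity
    apply mul_left_cancel₀ hne
    linear_combination h
  refine alg (B 0 0 + B 0 1 ^ 2 / B 0 0) (B 2 2) (B 3 3) (B 2 2 * B 3 3) (B 0 0 * B 3 3)
    (B 0 0 * B 2 2) (B 4 4 - 1) (B 5 5 - 1) (B 6 6 - 1) (B 4 5) (B 6 7)
    (B 0 4) (B 0 5) (B 0 6) (B 0 7) (B 2 4) (B 2 5) (B 2 6) (B 2 7) (B 3 4) (B 3 5) (B 3 6) (B 3 7)
    (by positivity) (by positivity) (by positivity) n45 n67 n04 n24 n34 n06 n26 n36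
    ?_ ?_ ?_ ?_ ?_ ?_ ?_ ?_ ?_ ?_ ?_ ?_ ?_ ?_
  · -- h40
    have h := sq 0 4
    have p := par 4
    rw [z20, z30, z64, z74, hs 0 1, hs 0 4, hs 0 5] at h
    rw [hs 4 5] at h
    field_simp
    linear_combination B 0 0 * h - B 0 1 * p
  · have h := sq 2 4
    rw [z02, z12, z32, z64, z74, hs 2 4, hs 2 5, hs 4 5] at h
    linear_combination h
  · have h := sq 3 4
    rw [z03, z13, z23, z64, z74, hs 3 4, hs 3 5, hs 4 5] at h
    linear_combination h
  · have h := sq 0 5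
    have p := par 5
    rw [z20, z30, z65, z75, hs 0 1, hs 0 4, hs 0 5] at h
    field_simp
    linear_combination B 0 0 * h - B 0 1 * p
  · have h := sq 2 5
    rw [z02, z12, z32, z65, z75, hs 2 4, hs 2 5] at h
    linear_combination h
  · have h := sq 3 5
    rw [z03, z13, z23, z65, z75, hs 3 4, hs 3 5] at h
    linear_combination h
  · have h := sq 0 6
    have p := par 6
    rw [z20, z30, z46, z56, hs 0 1, hs 0 6, hs 0 7, hs 6 7] at h
    field_simp
    linear_combination B 0 0 * h - B 0 1 * p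
  · have h := sq 2 6
    rw [z02, z12, z32, z46, z56, hs 2 6, hs 2 7, hs 6 7] at h
    linear_combination h
  · have h := sq 3 6
    rw [z03, z13, z23, z46, z56, hs 3 6, hs 3 7, hs 6 7] at h
    linear_combination h
  · have h := S 4 6
    rw [z46, hs 0 4, hs 2 4, hs 3 4] at h
    linear_combination -h
  · have h := S 5 6
    rw [z56, hs 0 5, hs 2 5, hs 3 5] at h
    linear_combination -h
  · have h := sq 0 2
    rw [z02, z12, z20, z32, hs 0 4, hs 0 5, hs 0 6, hs 0 7, hs 2 4, hs 2 5, hs 2 6, hs 2 7] at h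
    linear_combination h
  · have h := sq 0 3
    rw [z03, z13, z23, z30, hs 0 4, hs 0 5, hs 0 6, hs 0 7, hs 3 4, hs 3 5, hs 3 6, hs 3 7] at h
    linear_combination h
  · have h := sq 2 3
    rw [z02, z03, z12, z13, z23, z32, hs 2 4, hs 2 5, hs 2 6, hs 2 7, hs 3 4, hs 3 5, hs 3 6,
      hs 3 7] at h
    linear_combination h

/-! ## Spectral preliminaries -/

lemma isHermitian_of_isSymm {n : ℕ} {A : Matrix (Fin n) (Fin n) ℝ} (h : A.IsSymm) :
    A.IsHermitian := by
  rw [Matrix.IsHermitian, Matrix.conjTranspose_eq_transpose_of_trivial]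
  exact h

lemma prod_zero {n : ℕ} {A : Matrix (Fin n) (Fin n) ℝ} (hA : A.IsHermitian) {l m : ℝ}
    (h : spectrum ℝ A ⊆ {l, m}) :
    (A - l • (1 : Matrix (Fin n) (Fin n) ℝ)) * (A - m • (1 : Matrix (Fin n) (Fin n) ℝ)) = 0 := by
  set C := (A - l • (1 : Matrix (Fin n) (Fin n) ℝ)) * (A - m • (1 : Matrix (Fin n) (Fin n) ℝ))
    with hC
  have key : ∀ i, C *ᵥ (hA.eigenvectorBasis i : Fin n → ℝ) = 0 := by
    intro i
    have h1 := hA.mulVec_eigenvectorBasis i
    have h2 : hA.eigenvalues i = l ∨ hA.eigenvalues i = m := by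
      have := h (hA.eigenvalues_mem_spectrum_real i)
      simpa using this
    have h3 : ∀ c : ℝ, (A - c • (1 : Matrix (Fin n) (Fin n) ℝ)) *ᵥ
        (hA.eigenvectorBasis i : Fin n → ℝ) =
        (hA.eigenvalues i - c) • (hA.eigenvectorBasis i : Fin n → ℝ) := by
      intro c
      rw [Matrix.sub_mulVec, h1, Matrix.smul_mulVec, Matrix.one_mulVec, ← sub_smul]
    rw [hC, ← Matrix.mulVec_mulVec, h3, Matrix.mulVec_smul, h3, smul_smul]
    rcases h2 with h2 | h2 <;> simp [h2]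
  have hU : C * (hA.eigenvectorUnitary : Matrix (Fin n) (Fin n) ℝ) = 0 := by
    ext a b
    have := congrFun (key b) a
    simpa [Matrix.mul_apply, Matrix.mulVec, dotProduct] using this
  have := congrArg (· * (star (hA.eigenvectorUnitary : Matrix (Fin n) (Fin n) ℝ))) hU
  simpa [Matrix.mul_assoc] using this

lemma rank_sub {n : ℕ} (A : Matrix (Fin n) (Fin n) ℝ) (l : ℝ) :
    (A - l • (1 : Matrix (Fin n) (Fin n) ℝ)).rank + mult A l = n := by
  have h := LinearMap.finrank_range_add_finrank_ker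
    (Matrix.toLin' (A - l • (1 : Matrix (Fin n) (Fin n) ℝ)))
  have hk : LinearMap.ker (Matrix.toLin' (A - l • (1 : Matrix (Fin n) (Fin n) ℝ))) =
      Module.End.eigenspace (Matrix.toLin' A) l := by
    rw [Module.End.eigenspace_def]
    congr 1
    ext v i
    simp [Matrix.toLin'_apply]
  rw [hk, Module.finrank_fin_fun] at h
  exact h

lemma mem_spectrum_of_mult {n : ℕ} {A : Matrix (Fin n) (Fin n) ℝ} {l : ℝ} (h : 0 < mult A l) :
    l ∈ spectrum ℝ A := by
  by_contra hn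
  rw [spectrum.notMem_iff, Algebra.algebraMap_eq_smul_one] at hn
  have h1 : IsUnit (A - l • (1 : Matrix (Fin n) (Fin n) ℝ)) := by
    rw [← neg_sub]; exact hn.neg
  have h2 := Matrix.rank_of_isUnit _ h1
  have h3 := rank_sub A l
  rw [h2, Fintype.card_fin] at h3
  omega

/-! ## The main lemmas -/

/-- If `A ∈ S(G8)` satisfies `(A - l)(A - m) = 0` with `l ≠ m`, then `A - l` has rank at least 4. -/
lemma four_le_rank {A : Matrix (Fin 8) (Fin 8) ℝ} (hA : A ∈ SG G8) {l m : ℝ} (hlm : l ≠ m)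
    (h : (A - l • (1 : Matrix (Fin 8) (Fin 8) ℝ)) * (A - m • (1 : Matrix (Fin 8) (Fin 8) ℝ)) = 0) :
    4 ≤ (A - l • (1 : Matrix (Fin 8) (Fin 8) ℝ)).rank := by
  by_contra hcon
  have hml : m - l ≠ 0 := sub_ne_zero.mpr hlm.symm
  set D := A - l • (1 : Matrix (Fin 8) (Fin 8) ℝ) with hD
  have hDD : D * D = (m - l) • D := by
    have e : A - m • (1 : Matrix (Fin 8) (Fin 8) ℝ) = D - (m - l) • (1 : Matrix (Fin 8) (Fin 8) ℝ) := by
      rw [hD, sub_smul]; abel
    rw [e, Matrix.mul_sub, Matrix.mul_smul, Matrix.mul_one, sub_eq_zero] at h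
    exact h
  refine no_proj (B := (m - l)⁻¹ • D) ?_ ?_ ?_ ?_
  · rw [Matrix.IsSymm, Matrix.transpose_smul, hD, Matrix.transpose_sub, Matrix.transpose_smul,
      Matrix.transpose_one, hA.1]
  · rw [Matrix.smul_mul, Matrix.mul_smul, hDD, smul_smul, smul_smul, mul_assoc,
      inv_mul_cancel₀ hml, mul_one]
  · intro i j hij
    rw [← hA.2 i j hij, hD]
    simp [hij, hml]
  · have : (m - l)⁻¹ • D = D * ((m - l)⁻¹ • (1 : Matrix (Fin 8) (Fin 8) ℝ)) := by
      rw [Matrix.mul_smul, Matrix.mul_one]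
    rw [this]
    exact (Matrix.rank_mul_le_left _ _).trans (by omega)

lemma two_le_numEig {A : Matrix (Fin 8) (Fin 8) ℝ} (hA : A ∈ SG G8) : 2 ≤ numEig A := by
  by_contra hcon
  have h1 : (spectrum ℝ A).ncard ≤ 1 := by
    unfold numEig at hcon; omega
  have hH := isHermitian_of_isSymm hA.1
  obtain ⟨l, hl⟩ : ∃ l : ℝ, spectrum ℝ A ⊆ {l, l} := by
    refine ⟨hH.eigenvalues 0, ?_⟩
    intro x hx
    have := (Set.ncard_le_one (Matrix.finite_real_spectrum)).mp h1 x hx _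
      (hH.eigenvalues_mem_spectrum_real 0)
    simp [this]
  have h0 := prod_zero hH hl
  have h2 := congrFun (congrFun h0 0) 0
  rw [Matrix.mul_apply] at h2
  have hs : ∀ i j, A j i = A i j := fun i j => hA.1.apply i j
  have n04 : A 0 4 ≠ 0 := (hA.2 0 4 (by decide)).mpr (by decide)
  simp only [Fin.sum_univ_eight, Matrix.sub_apply, Matrix.smul_apply, Matrix.one_apply,
    Matrix.zero_apply] at h2
  rw [hs 0 1, hs 0 2, hs 0 3, hs 0 4, hs 0 5, hs 0 6, hs 0 7] at h2
  have : 0 < A 0 4 ^ 2 := by positivity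
  norm_num [Fin.ext_iff] at h2
  nlinarith [sq_nonneg (A 0 0 - l), sq_nonneg (A 0 1), sq_nonneg (A 0 2), sq_nonneg (A 0 3),
    sq_nonneg (A 0 5), sq_nonneg (A 0 6), sq_nonneg (A 0 7)]

lemma four_le_of_achieves {k : ℕ} (h : Achieves G8 k) : 4 ≤ k := by
  obtain ⟨hk1, hk2, A, hA, hn, l, m, hlm, hl, hm⟩ := h
  have hl' : l ∈ spectrum ℝ A := mem_spectrum_of_mult (by omega)
  have hm' : m ∈ spectrum ℝ A := mem_spectrum_of_mult (by omega)
  have hsub : spectrum ℝ A ⊆ {l, m} := by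
    have h1 : ({l, m} : Set ℝ) ⊆ spectrum ℝ A := by
      intro x hx
      rcases hx with rfl | rfl
      · exact hl'
      · exact hm'
    have h2 : ({l, m} : Set ℝ) = spectrum ℝ A := by
      apply Set.eq_of_subset_of_ncard_le h1 _ (Matrix.finite_real_spectrum)
      rw [Set.ncard_pair hlm]
      exact hn.le
    rw [h2]
  have h0 := prod_zero (isHermitian_of_isSymm hA.1) hsub
  have h4 := four_le_rank hA hlm h0
  have h5 := rank_sub A l
  omega

/-- The real matrix with square `625² I`. -/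
noncomputable def MR : Matrix (Fin 8) (Fin 8) ℝ := MZ.map (Int.castRingHom ℝ)

lemma MR_mem : MR ∈ SG G8 := by
  constructor
  · rw [Matrix.IsSymm, MR, ← Matrix.transpose_map, MZ_symm]
  · intro i j hij
    rw [← MZ_pattern i j hij]
    simp [MR]

lemma MR_sq : MR * MR = (390625 : ℝ) • (1 : Matrix (Fin 8) (Fin 8) ℝ) := by
  rw [MR, ← Matrix.map_mul, MZ_sq]
  ext i j
  rw [Matrix.map_apply, Matrix.smul_apply, Matrix.smul_apply, Matrix.one_apply, Matrix.one_apply]
  by_cases h : i = j <;> simp [h]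

lemma MR_prod : (MR - (625 : ℝ) • (1 : Matrix (Fin 8) (Fin 8) ℝ)) *
    (MR - (-625 : ℝ) • (1 : Matrix (Fin 8) (Fin 8) ℝ)) = 0 := by
  rw [Matrix.sub_mul, Matrix.mul_sub, Matrix.mul_sub, MR_sq]
  simp only [Matrix.mul_smul, Matrix.smul_mul, Matrix.mul_one, Matrix.one_mul, smul_smul]
  module

lemma MR_prod' : (MR - (-625 : ℝ) • (1 : Matrix (Fin 8) (Fin 8) ℝ)) *
    (MR - (625 : ℝ) • (1 : Matrix (Fin 8) (Fin 8) ℝ)) = 0 := by
  rw [Matrix.sub_mul, Matrix.mul_sub, Matrix.mul_sub, MR_sq]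
  simp only [Matrix.mul_smul, Matrix.smul_mul, Matrix.mul_one, Matrix.one_mul, smul_smul]
  module

lemma MR_mult : mult MR 625 = 4 ∧ mult MR (-625) = 4 := by
  have h1 := four_le_rank MR_mem (by norm_num : (625 : ℝ) ≠ -625) MR_prod
  have h2 := four_le_rank MR_mem (by norm_num : (-625 : ℝ) ≠ 625) MR_prod'
  have h3 := rank_sub MR 625
  have h4 := rank_sub MR (-625)
  have h5 : (MR - (625 : ℝ) • (1 : Matrix (Fin 8) (Fin 8) ℝ)).rank +
      (MR - (-625 : ℝ) • (1 : Matrix (Fin 8) (Fin 8) ℝ)).rank ≤ 8 := by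
    have := Matrix.rank_add_rank_le_card_of_mul_eq_zero MR_prod
    simpa using this
  omega

lemma MR_spectrum : spectrum ℝ MR = {625, -625} := by
  apply Set.Subset.antisymm
  · intro x hx
    by_contra hne
    simp only [Set.mem_insert_iff, Set.mem_singleton_iff, not_or] at hne
    rw [spectrum.mem_iff] at hx
    apply hx
    rw [Algebra.algebraMap_eq_smul_one]
    have hx2 : x ^ 2 - 390625 ≠ 0 := by
      intro h
      have : (x - 625) * (x + 625) = 0 := by linear_combination h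
      rcases mul_eq_zero.mp this with h | h
      · exact hne.1 (by linarith)
      · exact hne.2 (by linarith)
    have hprod : (x • (1 : Matrix (Fin 8) (Fin 8) ℝ) - MR) *
        ((x ^ 2 - 390625)⁻¹ • (x • (1 : Matrix (Fin 8) (Fin 8) ℝ) + MR)) = 1 := by
      rw [Matrix.mul_smul, Matrix.sub_mul, Matrix.mul_add, Matrix.mul_add, MR_sq]
      simp only [Matrix.mul_smul, Matrix.smul_mul, Matrix.mul_one, Matrix.one_mul, smul_smul]
      have : (x * x) • (1 : Matrix (Fin 8) (Fin 8) ℝ) + x • MR -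
          (x • MR + (390625 : ℝ) • (1 : Matrix (Fin 8) (Fin 8) ℝ)) =
          (x ^ 2 - 390625) • (1 : Matrix (Fin 8) (Fin 8) ℝ) := by module
      rw [this, smul_smul, inv_mul_cancel₀ hx2, one_smul]
    exact IsUnit.of_mul_eq_one _ hprod
  · intro x hx
    rcases hx with rfl | rfl
    · exact mem_spectrum_of_mult (by rw [MR_mult.1]; norm_num)
    · exact mem_spectrum_of_mult (by rw [MR_mult.2]; norm_num)

lemma MR_numEig : numEig MR = 2 := by
  rw [numEig, MR_spectrum]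
  exact Set.ncard_pair (by norm_num)

lemma q_G8 : q G8 = 2 := by
  have h2 : 2 ∈ {m | ∃ A ∈ SG G8, numEig A = m} := ⟨MR, MR_mem, MR_numEig⟩
  apply le_antisymm
  · exact Nat.sInf_le h2
  · apply le_csInf ⟨2, h2⟩
    rintro m ⟨A, hA, rfl⟩
    exact two_le_numEig hA

lemma achieves_four : Achieves G8 4 :=
  ⟨by norm_num, by norm_num, MR, MR_mem, MR_numEig, 625, -625, by norm_num,
    by rw [MR_mult.1], MR_mult.2⟩

lemma MB_G8 : MB G8 = 4 := by
  apply le_antisymm
  · exact Nat.sInf_le achieves_four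
  · apply le_csInf ⟨4, achieves_four⟩
    intro k hk
    exact four_le_of_achieves hk

lemma three_le_rank {A : Matrix (Fin 8) (Fin 8) ℝ} (hA : A ∈ SG G8) (hp : A.PosSemidef) :
    3 ≤ A.rank := by
  have hs : ∀ i j, A j i = A i j := fun i j => hA.1.apply i j
  have pos : ∀ i, A i 4 ≠ 0 → A i i ≠ 0 := by
    intro i hi h0
    have h1 := (hp.submatrix ![i, 4]).det_nonneg
    rw [Matrix.det_fin_two] at h1
    simp [h0, hs i 4] at h1
    have : 0 < A i 4 ^ 2 := by positivity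
    nlinarith
  have n0 := pos 0 ((hA.2 0 4 (by decide)).mpr (by decide))
  have n2 := pos 2 ((hA.2 2 4 (by decide)).mpr (by decide))
  have n3 := pos 3 ((hA.2 3 4 (by decide)).mpr (by decide))
  have zero : ∀ i j, i ≠ j → ¬ G8.Adj i j → A i j = 0 := fun i j hij hn => by
    by_contra h
    exact hn ((hA.2 i j hij).mp h)
  have z02 : A 0 2 = 0 := zero 0 2 (by decide) (by decide)
  have z03 : A 0 3 = 0 := zero 0 3 (by decide) (by decide)
  have z23 : A 2 3 = 0 := zero 2 3 (by decide) (by decide)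
  have z20 : A 2 0 = 0 := zero 2 0 (by decide) (by decide)
  have z30 : A 3 0 = 0 := zero 3 0 (by decide) (by decide)
  have z32 : A 3 2 = 0 := zero 3 2 (by decide) (by decide)
  have hdet : (A.submatrix ![0, 2, 3] ![0, 2, 3]).det ≠ 0 := by
    rw [Matrix.det_fin_three]
    simp [z02, z03, z23, z20, z30, z32, n0, n2, n3]
  have hu : IsUnit (A.submatrix ![0, 2, 3] ![0, 2, 3]) :=
    (Matrix.isUnit_iff_isUnit_det _).mpr (isUnit_iff_ne_zero.mpr hdet)
  have h1 := Matrix.rank_of_isUnit _ hu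
  have h2 := Matrix.rank_submatrix_le A ![0, 2, 3] ![0, 2, 3]
  rw [h1] at h2
  simpa using h2

/-- The real Gram vectors. -/
noncomputable def VR : Matrix (Fin 8) (Fin 3) ℝ := VZ.map (Int.castRingHom ℝ)

lemma VR_eq : VR * VRᵀ = (VZ * VZᵀ).map (Int.castRingHom ℝ) := by
  rw [VR, ← Matrix.transpose_map, ← Matrix.map_mul]

lemma VR_mem : VR * VRᵀ ∈ SG G8 := by
  constructor
  · rw [Matrix.IsSymm, Matrix.transpose_mul, Matrix.transpose_transpose]
  · intro i j hij
    rw [← VZ_pattern i j hij, VR_eq, Matrix.map_apply]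
    simp only [eq_intCast, ne_eq, Int.cast_eq_zero]

lemma VR_psd : (VR * VRᵀ).PosSemidef := by
  have := Matrix.posSemidef_self_mul_conjTranspose VR
  rwa [Matrix.conjTranspose_eq_transpose_of_trivial] at this

lemma VR_rank : (VR * VRᵀ).rank = 3 := by
  apply le_antisymm
  · exact (Matrix.rank_mul_le_left _ _).trans (by simpa using Matrix.rank_le_card_width VR)
  · exact three_le_rank VR_mem VR_psd

lemma mrPlus_G8 : mrPlus G8 = 3 := by
  have h3 : 3 ∈ {r | ∃ A ∈ SG G8, A.PosSemidef ∧ A.rank = r} := ⟨_, VR_mem, VR_psd, VR_rank⟩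
  apply le_antisymm
  · exact Nat.sInf_le h3
  · apply le_csInf ⟨3, h3⟩
    rintro m ⟨A, hA, hp, rfl⟩
    exact three_le_rank hA hp

/-- There is a graph `G` on eight vertices with `q(G) = 2`, `mr₊(G) = 3` and `MB(G) = 4`. -/
theorem result : ∃ G : SimpleGraph (Fin 8), q G = 2 ∧ mrPlus G = 3 ∧ MB G = 4 :=
  ⟨G8, q_G8, mrPlus_G8, MB_G8⟩

end Pool.Agent.Results.MP_558aee_co.MBGap
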